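import Pool.Agent.Helper19.TC.Fam

namespace Pool.Agent.Helper19.TC

/-- Taylor expansion -/
lemma KC_taylor (a e t h : ℤ) : ∃ R : ℤ, KC a e (t + h) 1 = KC a e t 1 +
    h * (2 * (t * (2 * (3 * e ^ 2 + a) * (t ^ 2 + 1) - 9 * e ^ 2))) + h ^ 2 * R := by
  refine ⟨(3 * e ^ 2 + a) * (6 * t ^ 2 + 4 * t * h + h ^ 2 + 2) - 9 * e ^ 2, ?_⟩
  simp only [KC]; ring

/-- the derivative is a unit at a zero -/
lemma deriv_unitC {a e t : ℤ} {p : ℕ} (hp : p.Prime) (h2 : ¬ (p : ℤ) ∣ 2) (h3 : ¬ (p : ℤ) ∣ 3)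
    (he : ¬ (p : ℤ) ∣ e) (hb : ¬ (p : ℤ) ∣ 3 * e ^ 2 + a) (hc : ¬ (p : ℤ) ∣ 3 * e ^ 2 + 4 * a)
    (ht : ¬ (p : ℤ) ∣ t) (h0 : (p : ℤ) ∣ KC a e t 1) :
    ¬ (p : ℤ) ∣ 2 * (t * (2 * (3 * e ^ 2 + a) * (t ^ 2 + 1) - 9 * e ^ 2)) := by
  have hpI : Prime (p : ℤ) := Nat.prime_iff_prime_int.1 hp
  intro h
  rcases hpI.dvd_or_dvd h with h1 | h1
  · exact h2 h1
  rcases hpI.dvd_or_dvd h1 with h1 | h1
  · exact ht h1
  have e1 : KC a e t 1 - t ^ 2 * (2 * (3 * e ^ 2 + a) * (t ^ 2 + 1) - 9 * e ^ 2) =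
      (3 * e ^ 2 + a) * ((t ^ 2 + 1) * (1 - t ^ 2)) := by simp only [KC]; ring
  have h4 : (p : ℤ) ∣ (3 * e ^ 2 + a) * ((t ^ 2 + 1) * (1 - t ^ 2)) := by
    rw [← e1]; exact dvd_sub h0 (Dvd.dvd.mul_left h1 _)
  rcases hpI.dvd_or_dvd h4 with h5 | h5
  · exact hb h5
  rcases hpI.dvd_or_dvd h5 with h6 | h6
  · have h7 : (p : ℤ) ∣ 3 * (3 * e ^ 2) := by
      have e2 : 3 * (3 * e ^ 2) = 2 * (3 * e ^ 2 + a) * (t ^ 2 + 1) -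
          (2 * (3 * e ^ 2 + a) * (t ^ 2 + 1) - 9 * e ^ 2) := by ring
      rw [e2]; exact dvd_sub (Dvd.dvd.mul_left h6 _) h1
    rcases hpI.dvd_or_dvd h7 with h8 | h8
    · exact h3 h8
    rcases hpI.dvd_or_dvd h8 with h9 | h9
    · exact h3 h9
    · exact he (hpI.dvd_of_dvd_pow h9)
  · apply hc
    have e2 : 3 * e ^ 2 + 4 * a = (2 * (3 * e ^ 2 + a) * (t ^ 2 + 1) - 9 * e ^ 2) +
        2 * (3 * e ^ 2 + a) * (1 - t ^ 2) := by ring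
    rw [e2]; exact dvd_add h1 (Dvd.dvd.mul_left h6 _)

/-- existence of the auxiliary prime and of the residue class -/
theorem exists_classC {a e : ℤ} (he : e ≠ 0) (h1 : 3 * e ^ 2 + a ≠ 0) (h2 : 3 * e ^ 2 + 4 * a ≠ 0)
    {M : ℤ} (hM : M ≠ 0) : ∃ p : ℕ, p.Prime ∧ ¬ (p : ℤ) ∣ M ∧ ∃ t : ℤ, GoodC a e p t 1 := by
  set B : ℤ := 3 * e ^ 2 + a with hB
  set c : ℤ := 3 * e ^ 2 + 4 * a with hc
  set n : ℤ := 6 * e * c * M with hn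
  set t : ℤ := B * n with ht
  set q : ℤ := (t ^ 2 + 1) ^ 2 - 9 * e ^ 2 * B * n ^ 2 with hq
  have hKq : KC a e t 1 = B * q := by
    have : KC a e t 1 = B * (t ^ 2 + 1) ^ 2 - 9 * e ^ 2 * t ^ 2 := by
      simp only [KC, hB]; ring
    rw [this, hq, ht]; ring
  have hq1 : 1 < q := by
    have sq1 : ∀ z : ℤ, z ≠ 0 → 1 ≤ z ^ 2 := fun z hz => by
      have := sq_nonneg z; have := pow_ne_zero 2 hz; omega
    have e1 := sq1 e he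
    have b1 := sq1 B h1
    have k1 := sq1 (c * M) (mul_ne_zero h2 hM)
    have n1 : 36 * e ^ 2 ≤ n ^ 2 := by
      have : n ^ 2 = 36 * e ^ 2 * (c * M) ^ 2 := by rw [hn]; ring
      rw [this]; nlinarith
    have n0 : 0 < n ^ 2 := by linarith
    have tt : t ^ 2 = B ^ 2 * n ^ 2 := by rw [ht]; ring
    have nt : n ^ 2 ≤ t ^ 2 := by rw [tt]; nlinarith
    have hBB : B ≤ B ^ 2 := by nlinarith [sq_nonneg (B - 1), sq_nonneg B]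
    have h3 : 4 * (9 * e ^ 2 * B * n ^ 2) ≤ t ^ 2 * t ^ 2 := by
      have h4 : 9 * e ^ 2 * B * n ^ 2 ≤ 9 * e ^ 2 * (B ^ 2 * n ^ 2) := by
        have : 9 * e ^ 2 * n ^ 2 * B ≤ 9 * e ^ 2 * n ^ 2 * B ^ 2 :=
          mul_le_mul_of_nonneg_left hBB (by positivity)
        linarith
      rw [← tt] at h4
      have h5 : 36 * e ^ 2 * t ^ 2 ≤ t ^ 2 * t ^ 2 :=
        mul_le_mul_of_nonneg_right (n1.trans nt) (sq_nonneg t)
      linarith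
    have t0 : 0 < t ^ 2 := lt_of_lt_of_le n0 nt
    have : q = t ^ 2 * t ^ 2 + 2 * t ^ 2 + 1 - 9 * e ^ 2 * B * n ^ 2 := by rw [hq]; ring
    rw [this]
    nlinarith
  obtain ⟨p, hp, hpq⟩ := Nat.exists_prime_and_dvd (n := q.natAbs) (by omega)
  have hpq' : (p : ℤ) ∣ q := Int.natCast_dvd.2 hpq
  have hpI : Prime (p : ℤ) := Nat.prime_iff_prime_int.1 hp
  have hpt : ¬ (p : ℤ) ∣ t := by
    intro h
    have e1 : (1 : ℤ) = q - t * (t ^ 3 + 2 * t - 9 * e ^ 2 * n) := by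
      rw [hq, ht]; ring
    have : (p : ℤ) ∣ 1 := by rw [e1]; exact dvd_sub hpq' (Dvd.dvd.mul_right h _)
    exact hpI.not_dvd_one this
  have f2 : ¬ (p : ℤ) ∣ 2 := fun h => hpt (h.trans ⟨B * 3 * e * c * M, by rw [ht, hn]; ring⟩)
  have f3 : ¬ (p : ℤ) ∣ 3 := fun h => hpt (h.trans ⟨B * 2 * e * c * M, by rw [ht, hn]; ring⟩)
  have fe : ¬ (p : ℤ) ∣ e := fun h => hpt (h.trans ⟨B * 6 * c * M, by rw [ht, hn]; ring⟩)
  have fb : ¬ (p : ℤ) ∣ B := fun h => hpt (h.trans ⟨n, by rw [ht]⟩)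
  have fc : ¬ (p : ℤ) ∣ c := fun h => hpt (h.trans ⟨B * 6 * e * M, by rw [ht, hn]; ring⟩)
  have fM : ¬ (p : ℤ) ∣ M := fun h => hpt (h.trans ⟨B * 6 * e * c, by rw [ht, hn]; ring⟩)
  have hK : (p : ℤ) ∣ KC a e t 1 := by rw [hKq]; exact Dvd.dvd.mul_left hpq' _
  refine ⟨p, hp, fM, ?_⟩
  by_cases hK2 : (p : ℤ) ^ 2 ∣ KC a e t 1
  · obtain ⟨R, hR⟩ := KC_taylor a e t p
    refine ⟨t + p, f2, f3, fe, fb, fc, ?_, hpI.not_dvd_one, ?_, ?_⟩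
    · intro h
      exact hpt ((Int.dvd_add_left (dvd_refl _)).1 h)
    · rw [hR]
      refine dvd_add (dvd_add hK (Dvd.intro _ rfl)) ?_
      rw [pow_two, mul_assoc]
      exact Dvd.intro _ rfl
    · intro h
      rw [hR] at h
      have h3 : (p : ℤ) ^ 2 ∣ (p : ℤ) * (2 * (t * (2 * (3 * e ^ 2 + a) * (t ^ 2 + 1) -
          9 * e ^ 2))) := by
        have h4 := dvd_sub (dvd_sub h (Dvd.intro R rfl)) hK2
        rwa [add_sub_cancel_right, add_sub_cancel_left] at h4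
      rw [pow_two] at h3
      exact deriv_unitC hp f2 f3 fe fb fc hpt hK ((mul_dvd_mul_iff_left hpI.ne_zero).1 h3)
  · exact ⟨t, f2, f3, fe, fb, fc, hpt, hpI.not_dvd_one, hK, hK2⟩

end Pool.Agent.Helper19.TC
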