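import Pool.Agent.Helper19.TW.Member

/-!
# Quadratic twists of a curve with a rational 2-torsion point: the sextic family

`E : y² = x³ + a x + b` with the integral root `e ≠ 0`, so `b = -e³ - a e`; shifted by `e` the curve
is `y² = x (x² + 3 e x + (3 e² + a))`.
-/

namespace Pool.Agent.Helper19.TC

open Pool.Agent.Helper19.TW

/-- the quartic form; `3 e² + a` is the derivative of the cubic at the root `e` -/
def KC (a e u v : ℤ) : ℤ := (3 * e ^ 2 + a) * (u ^ 2 + v ^ 2) ^ 2 - 9 * e ^ 2 * u ^ 2 * v ^ 2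

/-- the sextic form -/
def FC (a e u v : ℤ) : ℤ := -(3 * e) * (u ^ 2 + v ^ 2) * KC a e u v

/-- a prime which divides the quartic form exactly once and is good otherwise -/
structure GoodC (a e : ℤ) (p : ℕ) (u v : ℤ) : Prop where
  two : ¬ (p : ℤ) ∣ 2
  three : ¬ (p : ℤ) ∣ 3
  he : ¬ (p : ℤ) ∣ e
  hd1 : ¬ (p : ℤ) ∣ 3 * e ^ 2 + a
  hd2 : ¬ (p : ℤ) ∣ 3 * e ^ 2 + 4 * a
  hu : ¬ (p : ℤ) ∣ u
  hv : ¬ (p : ℤ) ∣ v
  h1 : (p : ℤ) ∣ KC a e u v
  h2 : ¬ (p : ℤ) ^ 2 ∣ KC a e u v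

/-- first coordinate of the first point, `e - 3 e v² / (u² + v²)` -/
def XC (e u v : ℤ) : ℚ := (e : ℚ) * (u ^ 2 - 2 * v ^ 2) / (u ^ 2 + v ^ 2)

/-- the point on `F y² = x³ + a x + b` -/
lemma point_eq {a b e u v : ℤ} (hb : e ^ 3 + a * e + b = 0) (hS : u ^ 2 + v ^ 2 ≠ 0) :
    (FC a e u v : ℚ) * ((v : ℚ) / (u ^ 2 + v ^ 2) ^ 2) ^ 2 =
      XC e u v ^ 3 + a * XC e u v + b := by
  have hS' : (u : ℚ) ^ 2 + v ^ 2 ≠ 0 := by exact_mod_cast hS
  have hb' : (b : ℚ) = -(e ^ 3 + a * e) := by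
    have : b = -(e ^ 3 + a * e) := by linarith
    rw [this]; push_cast; ring
  rw [hb']
  simp only [FC, KC, XC]
  push_cast
  field_simp
  ring

lemma FC_comm (a e u v : ℤ) : FC a e v u = FC a e u v := by simp only [FC, KC]; ring
lemma KC_comm (a e u v : ℤ) : KC a e v u = KC a e u v := by simp only [KC]; ring

lemma FC_one_zero (a e : ℤ) : FC a e 1 0 = -(3 * e) * (3 * e ^ 2 + a) := by
  simp only [FC, KC]; ring

lemma FC_one_one (a e : ℤ) : FC a e 1 1 = -(6 * e) * (3 * e ^ 2 + 4 * a) := by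
  simp only [FC, KC]; ring

end Pool.Agent.Helper19.TC
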