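import Pool.Agent.Helper19.TC.Rank

namespace Pool.Agent.Helper19.TC

open Pool.Agent.Helper19.TW

variable {a b e : ℤ} {p l : ℕ} {u v : ℤ}

lemma disc_c (hb : e ^ 3 + a * e + b = 0) :
    4 * a ^ 3 + 27 * b ^ 2 = (3 * e ^ 2 + a) ^ 2 * (3 * e ^ 2 + 4 * a) := by
  have : b = -(e ^ 3 + a * e) := by linarith
  rw [this]; ring

lemma GoodC.nS (hp : p.Prime) (h : GoodC a e p u v) : ¬ (p : ℤ) ∣ u ^ 2 + v ^ 2 := by
  have hpI : Prime (p : ℤ) := Nat.prime_iff_prime_int.1 hp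
  intro hs
  have h3 : (p : ℤ) ∣ 3 * (3 * (e ^ 2 * (u ^ 2 * v ^ 2))) := by
    have := dvd_sub (Dvd.dvd.mul_left hs ((3 * e ^ 2 + a) * (u ^ 2 + v ^ 2))) h.h1
    have e2 : (3 * e ^ 2 + a) * (u ^ 2 + v ^ 2) * (u ^ 2 + v ^ 2) - KC a e u v =
        3 * (3 * (e ^ 2 * (u ^ 2 * v ^ 2))) := by simp only [KC]; ring
    rwa [e2] at this
  rcases hpI.dvd_or_dvd h3 with h4 | h4
  · exact h.three h4
  rcases hpI.dvd_or_dvd h4 with h5 | h5
  · exact h.three h5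
  rcases hpI.dvd_or_dvd h5 with h6 | h6
  · exact h.he (hpI.dvd_of_dvd_pow h6)
  rcases hpI.dvd_or_dvd h6 with h7 | h7
  · exact h.hu (hpI.dvd_of_dvd_pow h7)
  · exact h.hv (hpI.dvd_of_dvd_pow h7)

lemma GoodC.nd (hp : p.Prime) (h : GoodC a e p u v) : ¬ (p : ℤ) ∣ u ^ 2 - v ^ 2 := by
  have hpI : Prime (p : ℤ) := Nat.prime_iff_prime_int.1 hp
  intro hd
  have h3 : (p : ℤ) ∣ (3 * e ^ 2 + 4 * a) * u ^ 4 := by
    have := dvd_add h.h1 (Dvd.dvd.mul_left hd ((3 * e ^ 2 + a) * (3 * u ^ 2 + v ^ 2) -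
      9 * e ^ 2 * u ^ 2))
    have e2 : KC a e u v + ((3 * e ^ 2 + a) * (3 * u ^ 2 + v ^ 2) - 9 * e ^ 2 * u ^ 2) *
        (u ^ 2 - v ^ 2) = (3 * e ^ 2 + 4 * a) * u ^ 4 := by simp only [KC]; ring
    rwa [e2] at this
  rcases hpI.dvd_or_dvd h3 with h4 | h4
  · exact h.hd2 h4
  · exact h.hu (hpI.dvd_of_dvd_pow h4)

lemma GoodC.norm_K [hp : Fact p.Prime] (h : GoodC a e p u v) :
    padicNorm p (KC a e u v : ℚ) = (p : ℚ)⁻¹ := by
  obtain ⟨k, hk⟩ := h.h1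
  have hk' : ¬ (p : ℤ) ∣ k := by
    rintro ⟨j, hj⟩
    apply h.h2
    exact ⟨j, by rw [hk, hj]; ring⟩
  rw [hk]
  push_cast
  rw [padicNorm.mul, norm_one hk', mul_one, padicNorm.padicNorm_p_of_prime]

lemma norm_one_mul [hp : Fact p.Prime] {x y : ℚ} (hx : padicNorm p x = 1)
    (hy : padicNorm p y = 1) : padicNorm p (x * y) = 1 := by
  rw [padicNorm.mul, hx, hy, one_mul]

lemma GoodC.norm_F [hp : Fact p.Prime] (h : GoodC a e p u v) :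
    padicNorm p (FC a e u v : ℚ) = (p : ℚ)⁻¹ := by
  have e1 : (FC a e u v : ℚ) = -(((3 : ℤ) : ℚ) * ((e : ℤ) : ℚ)) * ((u ^ 2 + v ^ 2 : ℤ) : ℚ) *
      (KC a e u v : ℚ) := by
    simp only [FC]; push_cast; ring
  rw [e1, padicNorm.mul, padicNorm.mul, padicNorm.neg, padicNorm.mul, norm_one h.three,
    norm_one h.he, norm_one (h.nS hp.out), h.norm_K]
  ring

/-- the conditions at the large prime -/
structure LargeC (e : ℤ) (l : ℕ) (u v : ℤ) : Prop where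
  three : ¬ (l : ℤ) ∣ 3
  he : ¬ (l : ℤ) ∣ e
  h1 : (l : ℤ) ∣ u ^ 2 + v ^ 2
  h2 : ¬ (l : ℤ) ^ 2 ∣ u ^ 2 + v ^ 2

lemma LargeC.symm (h : LargeC e l u v) : LargeC e l v u :=
  ⟨h.three, h.he, by rw [add_comm]; exact h.h1, by rw [add_comm]; exact h.h2⟩

lemma LargeC.nu (hl : l.Prime) (h : LargeC e l u v) : ¬ (l : ℤ) ∣ u := by
  have hlI : Prime (l : ℤ) := Nat.prime_iff_prime_int.1 hl
  intro g3
  have g4 : (l : ℤ) ∣ v ^ 2 := by
    have := dvd_sub h.h1 (Dvd.dvd.mul_right g3 u)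
    have e1 : u ^ 2 + v ^ 2 - u * u = v ^ 2 := by ring
    rwa [e1] at this
  have g5 := hlI.dvd_of_dvd_pow g4
  exact h.h2 (dvd_add (pow_dvd_pow_of_dvd g3 2) (pow_dvd_pow_of_dvd g5 2))

lemma LargeC.nK (hl : l.Prime) (h : LargeC e l u v) : ¬ (l : ℤ) ∣ KC a e u v := by
  have hlI : Prime (l : ℤ) := Nat.prime_iff_prime_int.1 hl
  intro hK
  have h3 : (l : ℤ) ∣ 3 * (3 * (e ^ 2 * (u ^ 2 * v ^ 2))) := by
    have := dvd_sub (Dvd.dvd.mul_left h.h1 ((3 * e ^ 2 + a) * (u ^ 2 + v ^ 2))) hK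
    have e2 : (3 * e ^ 2 + a) * (u ^ 2 + v ^ 2) * (u ^ 2 + v ^ 2) - KC a e u v =
        3 * (3 * (e ^ 2 * (u ^ 2 * v ^ 2))) := by simp only [KC]; ring
    rwa [e2] at this
  rcases hlI.dvd_or_dvd h3 with h4 | h4
  · exact h.three h4
  rcases hlI.dvd_or_dvd h4 with h5 | h5
  · exact h.three h5
  rcases hlI.dvd_or_dvd h5 with h6 | h6
  · exact h.he (hlI.dvd_of_dvd_pow h6)
  rcases hlI.dvd_or_dvd h6 with h7 | h7
  · exact h.nu hl (hlI.dvd_of_dvd_pow h7)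
  · exact h.symm.nu hl (hlI.dvd_of_dvd_pow h7)

lemma LargeC.nx (hl : l.Prime) (h : LargeC e l u v) : ¬ (l : ℤ) ∣ u ^ 2 - 2 * v ^ 2 := by
  have hlI : Prime (l : ℤ) := Nat.prime_iff_prime_int.1 hl
  intro hK
  have h3 : (l : ℤ) ∣ 3 * v ^ 2 := by
    have := dvd_sub h.h1 hK
    have e2 : u ^ 2 + v ^ 2 - (u ^ 2 - 2 * v ^ 2) = 3 * v ^ 2 := by ring
    rwa [e2] at this
  rcases hlI.dvd_or_dvd h3 with h4 | h4
  · exact h.three h4
  · exact h.symm.nu hl (hlI.dvd_of_dvd_pow h4)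

lemma LargeC.norm_S [hl : Fact l.Prime] (h : LargeC e l u v) :
    padicNorm l ((u ^ 2 + v ^ 2 : ℤ) : ℚ) = (l : ℚ)⁻¹ := by
  obtain ⟨k, hk⟩ := h.h1
  have hk' : ¬ (l : ℤ) ∣ k := by
    rintro ⟨j, hj⟩
    apply h.h2
    exact ⟨j, by rw [hk, hj]; ring⟩
  rw [hk]
  push_cast
  rw [padicNorm.mul, norm_one hk', mul_one, padicNorm.padicNorm_p_of_prime]

lemma LargeC.norm_F [hl : Fact l.Prime] (h : LargeC e l u v) :
    padicNorm l (FC a e u v : ℚ) = (l : ℚ)⁻¹ := by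
  have e1 : (FC a e u v : ℚ) = -(((3 : ℤ) : ℚ) * ((e : ℤ) : ℚ)) * ((u ^ 2 + v ^ 2 : ℤ) : ℚ) *
      (KC a e u v : ℚ) := by
    simp only [FC]; push_cast; ring
  rw [e1, padicNorm.mul, padicNorm.mul, padicNorm.neg, padicNorm.mul, norm_one h.three,
    norm_one h.he, norm_one (h.nK hl.out), h.norm_S]
  ring

lemma XC_eq (e u v : ℤ) : XC e u v = ((e : ℤ) : ℚ) * ((u ^ 2 - 2 * v ^ 2 : ℤ) : ℚ) /
    ((u ^ 2 + v ^ 2 : ℤ) : ℚ) := by
  simp only [XC]; push_cast; ring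

lemma LargeC.norm_X [hl : Fact l.Prime] (h : LargeC e l u v) :
    padicNorm l (XC e u v) = l := by
  rw [XC_eq, padicNorm.div, padicNorm.mul, norm_one h.he, norm_one (h.nx hl.out), h.norm_S]
  rw [one_mul, one_div, inv_inv]

/-- the norm of the twisting integer -/
lemma norm_d [hp : Fact p.Prime] {F d m : ℚ} (hF : padicNorm p F = (p : ℚ)⁻¹) (h : F = d * m ^ 2)
    (hm : padicNorm p m = 1) : padicNorm p d = (p : ℚ)⁻¹ := by
  rw [h, padicNorm.mul, pow_two, padicNorm.mul, hm] at hF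
  simpa using hF

/-- the rank part for one member of the family -/
theorem fam_rank_c [hp : Fact p.Prime] [hl : Fact l.Prime] (hb : e ^ 3 + a * e + b = 0)
    (h : GoodC a e p u v) (hL : LargeC e l u v) {d : ℤ} {m : ℚ}
    (hm : (FC a e u v : ℚ) = d * m ^ 2) (hN : padicNorm p m = 1) (hNl : padicNorm l m = 1) :
    ∃ P Q : (tw a b d).toAffine.Point, LinearIndependent ℤ ![P, Q] := by
  have hpp := hp.out
  have ne0 {z : ℤ} (hz : ¬ (p : ℤ) ∣ z) : z ≠ 0 := by rintro rfl; exact hz (dvd_zero _)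
  have hS0 := ne0 (h.nS hpp)
  have hS0' : u ^ 2 + v ^ 2 = v ^ 2 + u ^ 2 := add_comm _ _
  have hdp := norm_d h.norm_F hm hN
  have hdl := norm_d hL.norm_F hm hNl
  have nS : padicNorm p ((u ^ 2 + v ^ 2 : ℤ) : ℚ) = 1 := norm_one (h.nS hpp)
  have nS' : padicNorm p ((u : ℚ) ^ 2 + v ^ 2) = 1 := by exact_mod_cast nS
  have nS2 : padicNorm p (((u : ℚ) ^ 2 + v ^ 2) ^ 2) = 1 := by
    rw [pow_two]; exact norm_one_mul nS' nS'
  have hX : padicNorm p (XC e u v) ≤ 1 := by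
    rw [XC_eq, padicNorm.div, nS, div_one]
    exact nmul_le (nint e) (nint _)
  have hX' : padicNorm p (XC e v u) ≤ 1 := by
    rw [XC_eq, padicNorm.div, add_comm (v ^ 2) (u ^ 2), nS, div_one]
    exact nmul_le (nint e) (nint _)
  have hY : padicNorm p ((v : ℚ) / (u ^ 2 + v ^ 2) ^ 2) = 1 := by
    rw [padicNorm.div, nS2, norm_one h.hv, div_one]
  have hY' : padicNorm p ((u : ℚ) / (v ^ 2 + u ^ 2) ^ 2) = 1 := by
    rw [add_comm ((v : ℚ) ^ 2) (u ^ 2), padicNorm.div, nS2, norm_one h.hu, div_one]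
  have hdiff : XC e u v - XC e v u =
      ((e : ℤ) : ℚ) * (((3 : ℤ) : ℚ) * ((u ^ 2 - v ^ 2 : ℤ) : ℚ)) / ((u ^ 2 + v ^ 2 : ℤ) : ℚ) := by
    rw [XC_eq, XC_eq, add_comm (v ^ 2) (u ^ 2), ← sub_div]
    congr 1
    push_cast
    ring
  have hXX : padicNorm p (XC e u v - XC e v u) = 1 := by
    rw [hdiff, padicNorm.div, nS, padicNorm.mul, padicNorm.mul, norm_one h.he, norm_one h.three,
      norm_one (h.nd hpp)]
    norm_num
  have hD : padicNorm p ((4 * a ^ 3 + 27 * b ^ 2 : ℤ) : ℚ) = 1 := by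
    rw [disc_c hb]
    push_cast
    have n1 : padicNorm p (3 * (e : ℚ) ^ 2 + a) = 1 := by exact_mod_cast norm_one h.hd1
    have n2 : padicNorm p (3 * (e : ℚ) ^ 2 + 4 * a) = 1 := by exact_mod_cast norm_one h.hd2
    rw [pow_two (3 * (e : ℚ) ^ 2 + a)]
    exact norm_one_mul (norm_one_mul n1 n1) n2
  have e1 := point_eq (a := a) (b := b) (e := e) (u := u) (v := v) hb hS0
  have e2 := point_eq (a := a) (b := b) (e := e) (u := v) (v := u) hb (by rw [← hS0']; exact hS0)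
  rw [FC_comm] at e2
  rw [hm] at e1 e2
  have hl0 : (l : ℚ) ≠ 0 := by exact_mod_cast hl.out.ne_zero
  refine rank_two_c (x₁ := XC e u v) (x₂ := XC e v u)
    (y₁ := m * ((v : ℚ) / (u ^ 2 + v ^ 2) ^ 2)) (y₂ := m * ((u : ℚ) / (v ^ 2 + u ^ 2) ^ 2))
    hdp hdl hD (by rw [← e1]; ring) (by rw [← e2]; ring) hX hX' ?_ ?_ hXX ?_ ?_
  · rw [padicNorm.mul, hN, hY]; norm_num
  · rw [padicNorm.mul, hN, hY']; norm_num
  · rw [padicNorm.mul, hdl, hL.norm_X, inv_mul_cancel₀ hl0]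
  · rw [padicNorm.mul, hdl, hL.symm.norm_X, inv_mul_cancel₀ hl0]

end Pool.Agent.Helper19.TC
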