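import Pool.Agent.Helper19.TC.Member
import Pool.Agent.Helper19.TW.Final

namespace Pool.Agent.Helper19.TC

open Pool.Agent.Helper19.TW

theorem mainC {a b e : ℤ} (hb : e ^ 3 + a * e + b = 0) (he : e ≠ 0) (hd1 : 3 * e ^ 2 + a ≠ 0)
    (hd2 : 3 * e ^ 2 + 4 * a ≠ 0) {M : ℕ} (hM : 1 ≤ M) {w : ℤ → ℤ} (hw : RootLike M w)
    (h : ∃ u v : ℤ, FC a e u v ≠ 0 ∧ w (FC a e u v) = 1) :
    ∃ c : ℝ, 0 < c ∧ ∃ D₀ : ℝ, ∀ D : ℝ, D₀ ≤ D →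
      c * D ^ (1 / 3 : ℝ) / Real.log D ≤ (Set.ncard {d : ℤ | d ∈ Good a b w ∧ |(d : ℝ)| ≤ D} : ℝ) := by
  obtain ⟨u, v, h0, h1⟩ := h
  obtain ⟨C, l0, H⟩ := memberC hb he hd1 hd2 hM hw h0 h1
  classical
  choose! d hd using H
  obtain ⟨c, hc, x0, hp⟩ := Pool.Agent.Helper33.TW.primes4
  obtain ⟨c', hc', D0, hD⟩ := Pool.Agent.Helper8.TW.count (fun l => l % 4 = 1) 3 (by norm_num) C l0
    (Good a b w) d (fun l hl hl4 hll => by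
      obtain ⟨e1, e2, e3, e4, e5, e6⟩ := hd l hl hl4 hll
      exact ⟨⟨e1, e2, rank_ge e3⟩, e4, e5, e6⟩) c hc x0 hp
  refine ⟨c', hc', D0, fun D hDD => ?_⟩
  have := hD D hDD
  simpa using this

end Pool.Agent.Helper19.TC
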