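import Pool.Agent.Helper19.TC.FamRank
import Pool.Agent.Helper19.TW.Member2
import Pool.Agent.Helper19.TC.ClassC

namespace Pool.Agent.Helper19.TC

open Pool.Agent.Helper19.TW Pool.Agent.Helper8.TW

lemma KC_modEq {a e u v u' v' n : ℤ} (hu : u ≡ u' [ZMOD n]) (hv : v ≡ v' [ZMOD n]) :
    KC a e u v ≡ KC a e u' v' [ZMOD n] := by
  simp only [KC]
  gcongr

lemma FC_modEq {a e u v u' v' n : ℤ} (hu : u ≡ u' [ZMOD n]) (hv : v ≡ v' [ZMOD n]) :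
    FC a e u v ≡ FC a e u' v' [ZMOD n] := by
  simp only [FC, KC]
  gcongr

/-- transfer of a good prime to the residue class -/
lemma GoodC.transfer {a e : ℤ} {p : ℕ} {u v u' v' : ℤ} (h : GoodC a e p u v)
    (hu : u' ≡ u [ZMOD (p : ℤ) ^ 2]) (hv : v' ≡ v [ZMOD (p : ℤ) ^ 2]) : GoodC a e p u' v' := by
  have hpp : (p : ℤ) ∣ (p : ℤ) ^ 2 := dvd_pow_self _ two_ne_zero
  have hu1 : u' ≡ u [ZMOD (p : ℤ)] := hu.of_dvd hpp
  have hv1 : v' ≡ v [ZMOD (p : ℤ)] := hv.of_dvd hpp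
  refine ⟨h.two, h.three, h.he, h.hd1, h.hd2, ?_, ?_, ?_, ?_⟩
  · intro h1
    exact h.hu ((Int.modEq_zero_iff_dvd).1 (hu1.symm.trans ((Int.modEq_zero_iff_dvd).2 h1)))
  · intro h1
    exact h.hv ((Int.modEq_zero_iff_dvd).1 (hv1.symm.trans ((Int.modEq_zero_iff_dvd).2 h1)))
  · exact (Int.modEq_zero_iff_dvd).1 ((KC_modEq hu1 hv1).trans ((Int.modEq_zero_iff_dvd).2 h.h1))
  · intro h1
    exact h.h2 ((Int.modEq_zero_iff_dvd).1 ((KC_modEq hu hv).symm.trans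
      ((Int.modEq_zero_iff_dvd).2 h1)))

/-- size of the form -/
lemma FC_bound (a e : ℤ) {u v : ℤ} {T : ℝ} (hT : (u : ℝ) ^ 2 + (v : ℝ) ^ 2 ≤ T) :
    |(FC a e u v : ℝ)| ≤ 3 * |(e : ℝ)| * (|3 * (e : ℝ) ^ 2 + a| + 9 * (e : ℝ) ^ 2) * T ^ 3 := by
  set S : ℝ := (u : ℝ) ^ 2 + (v : ℝ) ^ 2 with hS
  have hS0 : 0 ≤ S := by positivity
  have hu : (u : ℝ) ^ 2 ≤ S := by rw [hS]; nlinarith [sq_nonneg (v : ℝ)]
  have hv : (v : ℝ) ^ 2 ≤ S := by rw [hS]; nlinarith [sq_nonneg (u : ℝ)]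
  have hK : |(KC a e u v : ℝ)| ≤ (|3 * (e : ℝ) ^ 2 + a| + 9 * (e : ℝ) ^ 2) * S ^ 2 := by
    have e1 : (KC a e u v : ℝ) = (3 * (e : ℝ) ^ 2 + a) * S ^ 2 -
        9 * (e : ℝ) ^ 2 * ((u : ℝ) ^ 2 * (v : ℝ) ^ 2) := by
      simp only [KC, hS]; push_cast; ring
    rw [e1, sub_eq_add_neg]
    refine (abs_add_le _ _).trans ?_
    have e3 : (|3 * (e : ℝ) ^ 2 + a| + 9 * (e : ℝ) ^ 2) * S ^ 2 =
      |3 * (e : ℝ) ^ 2 + a| * S ^ 2 + 9 * (e : ℝ) ^ 2 * S ^ 2 := by ring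
    rw [abs_neg, e3]
    refine add_le_add ?_ ?_
    · rw [abs_mul, abs_of_nonneg (by positivity : (0 : ℝ) ≤ S ^ 2)]
    · rw [abs_of_nonneg (by positivity)]
      have : (u : ℝ) ^ 2 * (v : ℝ) ^ 2 ≤ S ^ 2 := by
        rw [pow_two S]; exact mul_le_mul hu hv (by positivity) hS0
      exact mul_le_mul_of_nonneg_left this (by positivity)
  have e2 : (FC a e u v : ℝ) = -(3 * (e : ℝ)) * S * (KC a e u v : ℝ) := by
    simp only [FC, hS]; push_cast; ring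
  rw [e2, abs_mul, abs_mul, abs_neg, abs_mul, abs_of_nonneg hS0,
    abs_of_pos (by norm_num : (0 : ℝ) < 3)]
  calc 3 * |(e : ℝ)| * S * |(KC a e u v : ℝ)|
      ≤ 3 * |(e : ℝ)| * S * ((|3 * (e : ℝ) ^ 2 + a| + 9 * (e : ℝ) ^ 2) * S ^ 2) := by gcongr
    _ = 3 * |(e : ℝ)| * (|3 * (e : ℝ) ^ 2 + a| + 9 * (e : ℝ) ^ 2) * S ^ 3 := by ring
    _ ≤ 3 * |(e : ℝ)| * (|3 * (e : ℝ) ^ 2 + a| + 9 * (e : ℝ) ^ 2) * T ^ 3 := by gcongr

/-- the quartic form keeps its sign in a cone -/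
lemma coneC {a e : ℤ} {u₁ v₁ : ℤ} (hK : KC a e u₁ v₁ ≠ 0) :
    ∃ ε : ℝ, 0 < ε ∧ ε < 1 ∧ ∀ (t : ℝ) (u v : ℤ), 0 < t → |(u : ℝ) - t * u₁| ≤ ε * t →
      |(v : ℝ) - t * v₁| ≤ ε * t → 0 < KC a e u v * KC a e u₁ v₁ := by
  set K₁ : ℝ := ((KC a e u₁ v₁ : ℤ) : ℝ) with hK₁
  have hK₁0 : K₁ ≠ 0 := by rw [hK₁]; exact_mod_cast hK
  have cast : ∀ u v : ℤ, ((3 * (e : ℝ) ^ 2 + a) * ((u : ℝ) ^ 2 + (v : ℝ) ^ 2) ^ 2 -
      9 * (e : ℝ) ^ 2 * (u : ℝ) ^ 2 * (v : ℝ) ^ 2) = ((KC a e u v : ℤ) : ℝ) := by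
    intro u v
    simp only [KC]; push_cast; ring
  obtain ⟨ε, h0, h1, H⟩ := cone_pos
    (fun u v => ((3 * (e : ℝ) ^ 2 + a) * (u ^ 2 + v ^ 2) ^ 2 -
      9 * (e : ℝ) ^ 2 * u ^ 2 * v ^ 2) * K₁) (by fun_prop) 4 (fun t x y => by ring) u₁ v₁ (by
        show 0 < ((3 * (e : ℝ) ^ 2 + a) * ((u₁ : ℝ) ^ 2 + (v₁ : ℝ) ^ 2) ^ 2 -
          9 * (e : ℝ) ^ 2 * (u₁ : ℝ) ^ 2 * (v₁ : ℝ) ^ 2) * K₁
        rw [cast, ← hK₁]
        exact mul_self_pos.2 hK₁0)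
  refine ⟨ε, h0, h1, fun t u v ht hu hv => ?_⟩
  have := H t u v ht hu hv
  simp only [cast] at this
  rw [hK₁] at this
  exact_mod_cast this

lemma norm_r {q : ℕ} [hq : Fact q.Prime] {F d r : ℤ}
    (hF : padicNorm q (F : ℚ) = (q : ℚ)⁻¹) (h : F = d * r ^ 2) : padicNorm q (r : ℚ) = 1 := by
  refine norm_one ?_
  rintro ⟨s, hs⟩
  rw [h, hs] at hF
  have e2 : (((d * (q * s) ^ 2 : ℤ)) : ℚ) = (q : ℚ) * ((q : ℚ) * ((d * s ^ 2 : ℤ) : ℚ)) := by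
    push_cast; ring
  rw [e2, padicNorm.mul, padicNorm.mul, padicNorm.padicNorm_p_of_prime] at hF
  have hp1 : (1 : ℚ) < q := by exact_mod_cast hq.out.one_lt
  have hinv : (q : ℚ)⁻¹ < 1 := inv_lt_one_of_one_lt₀ hp1
  have hinv0 : (0 : ℚ) < (q : ℚ)⁻¹ := inv_pos.2 (by linarith)
  have hle := nint (p := q) (d * s ^ 2)
  have : (q : ℚ)⁻¹ * padicNorm q ((d * s ^ 2 : ℤ) : ℚ) = 1 := by
    have h3 : (q : ℚ)⁻¹ * ((q : ℚ)⁻¹ * padicNorm q ((d * s ^ 2 : ℤ) : ℚ)) = (q : ℚ)⁻¹ * 1 := by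
      rw [mul_one]; exact hF
    exact mul_left_cancel₀ hinv0.ne' h3
  nlinarith

/-- one member of the family for each large prime `l ≡ 1 (mod 4)` -/
theorem memberC {a b e : ℤ} (hb : e ^ 3 + a * e + b = 0) (he : e ≠ 0) (hd1 : 3 * e ^ 2 + a ≠ 0)
    (hd2 : 3 * e ^ 2 + 4 * a ≠ 0)
    {M : ℕ} (hM : 1 ≤ M) {w : ℤ → ℤ} (hw : RootLike M w) {u₁ v₁ : ℤ} (h0 : FC a e u₁ v₁ ≠ 0)
    (h1 : w (FC a e u₁ v₁) = 1) :
    ∃ (C : ℝ) (l0 : ℕ), ∀ l : ℕ, l.Prime → l % 4 = 1 → l0 ≤ l → ∃ d : ℤ, IsFund d ∧ w d = 1 ∧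
      (∃ P Q : (tw a b d).toAffine.Point, LinearIndependent ℤ ![P, Q]) ∧ d ≠ 0 ∧ (l : ℤ) ∣ d ∧
        |(d : ℝ)| ≤ C * (l : ℝ) ^ 3 := by
  set F₁ := FC a e u₁ v₁ with hF₁
  set L₁ : ℤ := 8 * M * F₁ with hL₁
  have hM0 : (M : ℤ) ≠ 0 := by positivity
  have hL₁0 : L₁ ≠ 0 := mul_ne_zero (mul_ne_zero (by norm_num) hM0) h0
  obtain ⟨p, hp, hpL, t, hG⟩ := exists_classC he hd1 hd2 hL₁0
  have hpI : Prime (p : ℤ) := Nat.prime_iff_prime_int.1 hp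
  have hpF : Fact p.Prime := ⟨hp⟩
  -- Chinese remainders
  have hcop : IsCoprime L₁ ((p : ℤ) ^ 2) := by
    apply IsCoprime.pow_right
    exact ((Prime.coprime_iff_not_dvd hpI).2 hpL).symm
  obtain ⟨al, be, hab⟩ := hcop
  have crt : ∀ x y : ℤ, ∃ z : ℤ, z ≡ x [ZMOD L₁] ∧ z ≡ y [ZMOD (p : ℤ) ^ 2] := by
    intro x y
    refine ⟨x * (be * (p : ℤ) ^ 2) + y * (al * L₁), ?_, ?_⟩
    · refine (Int.modEq_iff_dvd).2 ⟨al * (x - y), ?_⟩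
      linear_combination (-x) * hab
    · refine (Int.modEq_iff_dvd).2 ⟨be * (y - x), ?_⟩
      linear_combination (-y) * hab
  obtain ⟨uc, huc1, huc2⟩ := crt u₁ t
  obtain ⟨vc, hvc1, hvc2⟩ := crt v₁ 1
  -- sign
  have hne : u₁ ≠ 0 ∨ v₁ ≠ 0 := by
    by_contra hc
    push Not at hc
    apply h0
    rw [hF₁, hc.1, hc.2]
    simp [FC, KC]
  have hK₁ : KC a e u₁ v₁ ≠ 0 := by
    intro h
    apply h0
    rw [hF₁]; simp only [FC]; rw [h, mul_zero]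
  obtain ⟨ε, hε, hε1, hcone⟩ := coneC hK₁
  set L : ℕ := L₁.natAbs * p ^ 2 with hL
  have hL1 : 1 ≤ L := by
    rw [hL]
    exact Nat.one_le_iff_ne_zero.2 (mul_ne_zero (Int.natAbs_ne_zero.2 hL₁0)
      (pow_ne_zero 2 hp.ne_zero))
  obtain ⟨C, R, l0, hR, H⟩ := gauss uc vc u₁ v₁ hne L hL1 ε hε hε1
  set C' : ℝ := 3 * |(e : ℝ)| * (|3 * (e : ℝ) ^ 2 + a| + 9 * (e : ℝ) ^ 2) * C ^ 3 with hC'
  refine ⟨4 * C', max l0 (e.natAbs + 4), ?_⟩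
  intro l hl hl4 hll
  have hl0 : l0 ≤ l := le_trans (le_max_left _ _) hll
  have hlM := le_trans (le_max_right _ _) hll
  have hle : ¬ (l : ℤ) ∣ e := prime_not_dvd_of_lt he (by omega)
  have hl3 : ¬ (l : ℤ) ∣ 3 := prime_not_dvd_of_lt (by norm_num) (by
    have : (3 : ℤ).natAbs = 3 := rfl
    omega)
  have hl2 : ¬ (l : ℤ) ∣ 2 := prime_not_dvd_of_lt (by norm_num) (by
    have : (2 : ℤ).natAbs = 2 := rfl
    omega)
  have hlF : Fact l.Prime := ⟨hl⟩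
  obtain ⟨u, v, hu, hv, hS1, hS2, hsz, hdu, hdv⟩ := H l hl hl4 hl0
  have hLC : LargeC e l u v := ⟨hl3, hle, hS1, hS2⟩
  have hLL : (L : ℤ) = |L₁| * (p : ℤ) ^ 2 := by
    rw [hL]; push_cast; rfl
  have hL₁L : L₁ ∣ (L : ℤ) := by
    rw [hLL]; exact Dvd.dvd.mul_right ((dvd_abs _ _).2 dvd_rfl) _
  have hpL' : (p : ℤ) ^ 2 ∣ (L : ℤ) := by rw [hLL]; exact Dvd.intro_left _ rfl
  have hu1 : u ≡ u₁ [ZMOD L₁] :=
    (((Int.modEq_iff_dvd).2 hu).symm.of_dvd hL₁L).trans huc1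
  have hv1 : v ≡ v₁ [ZMOD L₁] :=
    (((Int.modEq_iff_dvd).2 hv).symm.of_dvd hL₁L).trans hvc1
  have hu2 : u ≡ t [ZMOD (p : ℤ) ^ 2] :=
    (((Int.modEq_iff_dvd).2 hu).symm.of_dvd hpL').trans huc2
  have hv2 : v ≡ 1 [ZMOD (p : ℤ) ^ 2] :=
    (((Int.modEq_iff_dvd).2 hv).symm.of_dvd hpL').trans hvc2
  have hG' : GoodC a e p u v := hG.transfer hu2 hv2
  -- the value
  set F := FC a e u v with hF
  have hFm : F₁ ≡ F [ZMOD L₁] := (FC_modEq hu1 hv1).symm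
  obtain ⟨k, hk⟩ := (Int.modEq_iff_dvd).1 hFm
  have hFe : F = F₁ * (1 + 8 * M * k) := by
    rw [hL₁] at hk; linear_combination hk
  have hRl : 0 < R * Real.sqrt l := by
    have : (0 : ℝ) < l := by exact_mod_cast hl.pos
    positivity
  have hKK : 0 < KC a e u v * KC a e u₁ v₁ :=
    hcone (R * Real.sqrt l) u v hRl (by rw [← mul_assoc]; exact hdu) (by rw [← mul_assoc]; exact hdv)
  have hSpos : 0 < u ^ 2 + v ^ 2 := by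
    have : u ≠ 0 := by
      rintro h
      exact hG'.hu (by rw [h]; exact dvd_zero _)
    positivity
  have hS₁pos : 0 < u₁ ^ 2 + v₁ ^ 2 := by
    rcases hne with h | h
    · positivity
    · positivity
  have hFF : 0 < F * F₁ := by
    have : F * F₁ = (3 * e) ^ 2 * ((u ^ 2 + v ^ 2) * (u₁ ^ 2 + v₁ ^ 2)) *
        (KC a e u v * KC a e u₁ v₁) := by
      rw [hF, hF₁]; simp only [FC]; ring
    rw [this]
    positivity
  have he0 : 0 < 1 + 8 * M * k := by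
    rw [hFe] at hFF
    have : F₁ * (1 + 8 * M * k) * F₁ = F₁ ^ 2 * (1 + 8 * M * k) := by ring
    rw [this] at hFF
    exact (mul_pos_iff_of_pos_left (by positivity)).1 hFF
  have hwF : w F = 1 := by
    rw [hFe, hw.tw F₁ _ h0 ⟨k, by ring⟩, Int.sign_eq_one_of_pos he0, h1, one_mul]
  have hF0 : F ≠ 0 := by rw [hFe]; exact mul_ne_zero h0 he0.ne'
  obtain ⟨d, r, hdr, hdsq, hr0⟩ := sqfree_part hF0
  have hd0 : d ≠ 0 := hdsq.ne_zero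
  have hwd : w d = 1 := by rw [← hw.sq d r hd0 hr0, ← hdr]; exact hwF
  have hNr : padicNorm p (r : ℚ) = 1 := norm_r hG'.norm_F (hF.symm.trans hdr)
  have hNl : padicNorm l (r : ℚ) = 1 := norm_r (hLC.norm_F (a := a)) (hF.symm.trans hdr)
  have hFd' : (FC a e u v : ℚ) = d * (r : ℚ) ^ 2 := by
    rw [← hF, hdr]; push_cast; ring
  have hdl := norm_d (hLC.norm_F (a := a)) hFd' hNl
  have hld : (l : ℤ) ∣ d := by
    refine (padicNorm.int_lt_one_iff (p := l) d).1 ?_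
    rw [hdl]
    exact inv_lt_one_of_one_lt₀ (by exact_mod_cast hl.one_lt)
  have hFd : |(d : ℝ)| ≤ |(F : ℝ)| := by
    rw [hdr]; push_cast; rw [abs_mul]
    have : (1 : ℝ) ≤ |(r : ℝ) ^ 2| := by
      rw [abs_pow, sq_abs]
      have : 1 ≤ r ^ 2 := by have := sq_nonneg r; have := pow_ne_zero 2 hr0; omega
      exact_mod_cast this
    nlinarith [abs_nonneg (d : ℝ)]
  have hbd : |(F : ℝ)| ≤ C' * (l : ℝ) ^ 3 := by
    refine (FC_bound a e hsz).trans (le_of_eq ?_)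
    rw [hC']; ring
  have hC'0 : 0 ≤ C' * (l : ℝ) ^ 3 := le_trans (abs_nonneg _) hbd
  have n2p : padicNorm p (2 : ℚ) = 1 := by exact_mod_cast norm_one hG.two
  have n2l : padicNorm l (2 : ℚ) = 1 := by exact_mod_cast norm_one hl2
  rcases fund_of_sqfree hdsq with hf | hf
  · refine ⟨d, hf, hwd, fam_rank_c hb hG' hLC (m := r) hFd' hNr hNl, hd0, hld, ?_⟩
    linarith
  · refine ⟨4 * d, hf, ?_, fam_rank_c hb hG' hLC (m := r / 2) ?_ ?_ ?_, by omega,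
      Dvd.dvd.mul_left hld 4, ?_⟩
    · have := hw.sq d 2 hd0 two_ne_zero
      rw [← hwd, ← this]; congr 1; ring
    · rw [hFd']; push_cast; ring
    · rw [padicNorm.div, hNr, n2p]; norm_num
    · rw [padicNorm.div, hNl, n2l]; norm_num
    · push_cast
      rw [abs_mul]
      have : |(4 : ℝ)| = 4 := abs_of_pos (by norm_num)
      rw [this]
      linarith

end Pool.Agent.Helper19.TC
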