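import Pool.Agent.Helper19.TC.Fam

/-!
Independence of two points of a twist of a curve which may have rational 2-torsion: one prime `p`
for the component group, one prime `l` at which both points are in the identity component.
-/

namespace Pool.Agent.Helper19.TC

open Pool.Agent.Helper19.TW WeierstrassCurve WeierstrassCurve.Affine

/-- abstract independence argument with an auxiliary subgroup -/
lemma indep2 {G : Type*} [AddCommGroup G] (S : G → Prop) (H : AddSubgroup G)
    (hn : ∀ x, S x → S (-x)) (h2 : ∀ x, S (x + x)) (ht : ∀ x ∈ H, x + x = 0 → x = 0)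
    {P Q : G} (hP : ¬ S P) (hQ : ¬ S Q) (hPQ : ¬ S (P + Q)) (tP : P ∈ H) (tQ : Q ∈ H) :
    ∀ s t : ℤ, s • P + t • Q = 0 → s = 0 ∧ t = 0 := by
  have main : ∀ n : ℕ, ∀ s t : ℤ, s.natAbs + t.natAbs ≤ n → s • P + t • Q = 0 → s = 0 ∧ t = 0 := by
    intro n
    induction n with
    | zero =>
      intro s t h _
      constructor <;> omega
    | succ n ih =>
      intro s t h e
      rcases Int.even_or_odd' s with ⟨s', hs | hs⟩ <;> rcases Int.even_or_odd' t with ⟨t', ht' | ht'⟩
      · -- both even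
        have e2 : (s' • P + t' • Q) + (s' • P + t' • Q) = 0 := by
          rw [← e, hs, ht', two_mul, two_mul, add_smul, add_smul]; abel
        have e3 := ht _ (H.add_mem (H.zsmul_mem tP _) (H.zsmul_mem tQ _)) e2
        by_cases h0 : s = 0 ∧ t = 0
        · exact h0
        · have := ih s' t' (by omega) e3
          constructor <;> omega
      · exfalso
        apply hQ
        have : Q = -((s' • P + t' • Q) + (s' • P + t' • Q)) := by
          rw [eq_neg_iff_add_eq_zero, ← e, hs, ht', two_mul, two_mul, add_smul, add_smul, add_smul,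
            one_smul]
          abel
        rw [this]
        exact hn _ (h2 _)
      · exfalso
        apply hP
        have : P = -((s' • P + t' • Q) + (s' • P + t' • Q)) := by
          rw [eq_neg_iff_add_eq_zero, ← e, hs, ht', two_mul, two_mul, add_smul, add_smul, add_smul,
            one_smul]
          abel
        rw [this]
        exact hn _ (h2 _)
      · exfalso
        apply hPQ
        have : P + Q = -((s' • P + t' • Q) + (s' • P + t' • Q)) := by
          rw [eq_neg_iff_add_eq_zero, ← e, hs, ht', two_mul, two_mul, add_smul, add_smul, add_smul,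
            add_smul, one_smul, one_smul]
          abel
        rw [this]
        exact hn _ (h2 _)
  intro s t e
  exact main _ s t le_rfl e

/-- rational roots are integral -/
lemma root_integral {l : ℕ} [hl : Fact l.Prime] {a b : ℤ} {r : ℚ} (h : r ^ 3 + a * r + b = 0) :
    padicNorm l r ≤ 1 := by
  by_contra hc
  push Not at hc
  have e : r ^ 3 = -(a * r + b) := by linear_combination h
  have h1 : padicNorm l (r ^ 3) = padicNorm l r * padicNorm l r * padicNorm l r := by
    rw [pow_succ, pow_two, padicNorm.mul, padicNorm.mul]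
  have h2 : padicNorm l (-(a * r + b)) ≤ padicNorm l r := by
    rw [padicNorm.neg]
    refine nadd_le ?_ ?_
    · rw [padicNorm.mul]
      have := nint (p := l) a
      nlinarith [padicNorm.nonneg (p := l) r]
    · exact (nint (p := l) b).trans hc.le
  rw [← e, h1] at h2
  nlinarith [mul_pos (lt_trans one_pos hc) (lt_trans one_pos hc)]

/-- the points in the identity component at `l` -/
def GdSub (l : ℕ) [hl : Fact l.Prime] {a b d : ℤ} (hd : padicNorm l (d : ℚ) = (l : ℚ)⁻¹) :
    AddSubgroup (tw a b d).toAffine.Point where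
  carrier := {P | Gd l P}
  add_mem' := fun hP hQ => Gd_add (p := l) (coefA hd) (coefB hd) hP hQ
  zero_mem' := Gd_zero (p := l) (W := tw a b d)
  neg_mem' := fun hP => Gd_neg (p := l) hP

lemma two_tors_l {l : ℕ} [hl : Fact l.Prime] {a b d : ℤ} (hd : padicNorm l (d : ℚ) = (l : ℚ)⁻¹)
    (R : (tw a b d).toAffine.Point) (hR : Gd l R) (h : R + R = 0) : R = 0 := by
  have hl1 : (1 : ℚ) < l := by exact_mod_cast hl.out.one_lt
  have hinv : (l : ℚ)⁻¹ < 1 := inv_lt_one_of_one_lt₀ hl1
  have hd0 : (d : ℚ) ≠ 0 := by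
    intro h0
    rw [h0, padicNorm.zero] at hd
    have := inv_pos.2 (lt_trans one_pos hl1)
    linarith
  cases R with
  | zero => rfl
  | some X Y hXY =>
    exfalso
    by_cases hY : Y = (tw a b d).toAffine.negY X Y
    · have hY0 : Y = 0 := by
        simp only [WeierstrassCurve.Affine.negY, tw] at hY
        linarith
      have heq : Y ^ 2 = X ^ 3 + (a * d ^ 2 : ℤ) * X + (b * d ^ 3 : ℤ) := tw_eq hXY.1
      rw [hY0] at heq
      push_cast at heq
      have hr : (X / d) ^ 3 + a * (X / d) + b = 0 := by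
        field_simp
        linarith
      have hn := root_integral (l := l) hr
      have hX : X = d * (X / d) := by field_simp
      have h1 : 1 ≤ padicNorm l X := hR
      rw [hX, padicNorm.mul, hd] at h1
      have h2 : (l : ℚ)⁻¹ * padicNorm l (X / d) ≤ (l : ℚ)⁻¹ * 1 :=
        mul_le_mul_of_nonneg_left hn (inv_nonneg.2 (by linarith))
      linarith
    · rw [WeierstrassCurve.Affine.Point.add_self_of_Y_ne hY] at h
      exact WeierstrassCurve.Affine.Point.some_ne_zero _ h

/-- the rank theorem with two primes -/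
theorem rank_two_c {p l : ℕ} [hp : Fact p.Prime] [hl : Fact l.Prime] {a b d : ℤ}
    (hdp : padicNorm p (d : ℚ) = (p : ℚ)⁻¹) (hdl : padicNorm l (d : ℚ) = (l : ℚ)⁻¹)
    (hD : padicNorm p ((4 * a ^ 3 + 27 * b ^ 2 : ℤ) : ℚ) = 1)
    {x₁ y₁ x₂ y₂ : ℚ} (h₁ : d * y₁ ^ 2 = x₁ ^ 3 + a * x₁ + b)
    (h₂ : d * y₂ ^ 2 = x₂ ^ 3 + a * x₂ + b) (nx₁ : padicNorm p x₁ ≤ 1) (nx₂ : padicNorm p x₂ ≤ 1)
    (ny₁ : padicNorm p y₁ ≤ 1) (ny₂ : padicNorm p y₂ ≤ 1) (nx : padicNorm p (x₁ - x₂) = 1)
    (lx₁ : 1 ≤ padicNorm l (d * x₁)) (lx₂ : 1 ≤ padicNorm l (d * x₂)) :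
    ∃ P Q : (tw a b d).toAffine.Point, LinearIndependent ℤ ![P, Q] := by
  have hp0 : (0 : ℚ) < p := by exact_mod_cast hp.out.pos
  have hp1 : (1 : ℚ) < p := by exact_mod_cast hp.out.one_lt
  have hinv : (p : ℚ)⁻¹ < 1 := inv_lt_one_of_one_lt₀ hp1
  have hinv0 : (0 : ℚ) < (p : ℚ)⁻¹ := inv_pos.2 hp0
  have hd0' : (d : ℚ) ≠ 0 := by
    intro h0
    rw [h0, padicNorm.zero] at hdp
    linarith
  have hd0 : d ≠ 0 := by exact_mod_cast hd0'
  have hD0 : 4 * a ^ 3 + 27 * b ^ 2 ≠ 0 := by
    intro h0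
    rw [h0] at hD
    simp at hD
  have hdlt : padicNorm p (d : ℚ) < 1 := by rw [hdp]; exact hinv
  refine ⟨.some _ _ (mk_point hd0 hD0 h₁), .some _ _ (mk_point hd0 hD0 h₂), ?_⟩
  rw [LinearIndependent.pair_iff]
  refine indep2 (G := (tw a b d).toAffine.Point) (Gd p) (GdSub l hdl) (fun _ h => Gd_neg h)
    (Gd_dbl hdp hD) (fun R hR h => two_tors_l hdl R (show Gd l R from hR) h) ?_ ?_ ?_ lx₁ lx₂
  · exact not_le.2 (nmul_lt hdlt nx₁)
  · exact not_le.2 (nmul_lt hdlt nx₂)
  · have hne : x₁ - x₂ ≠ 0 := by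
      intro h0
      rw [h0, padicNorm.zero] at nx
      exact zero_ne_one nx
    have hX : (d * x₁ : ℚ) ≠ d * x₂ := by
      intro h
      exact hne (sub_eq_zero.2 (mul_left_cancel₀ hd0' h))
    rw [WeierstrassCurve.Affine.Point.add_of_X_ne hX]
    change ¬ (1 ≤ padicNorm p _)
    rw [not_le, WeierstrassCurve.Affine.slope_of_X_ne hX]
    have e : (tw a b d).toAffine.addX (d * x₁) (d * x₂)
        ((d ^ 2 * y₁ - d ^ 2 * y₂) / (d * x₁ - d * x₂)) =
        (d * ((y₁ - y₂) / (x₁ - x₂))) ^ 2 - d * x₁ - d * x₂ := by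
      simp only [WeierstrassCurve.Affine.addX, tw]
      have : ((d : ℚ) ^ 2 * y₁ - d ^ 2 * y₂) / (d * x₁ - d * x₂) = d * ((y₁ - y₂) / (x₁ - x₂)) := by
        rw [← mul_sub, ← mul_sub, pow_two, mul_assoc, mul_div_mul_left _ _ hd0', mul_div_assoc]
      rw [this]
      ring
    rw [e]
    have hs : padicNorm p ((y₁ - y₂) / (x₁ - x₂)) ≤ 1 := by
      rw [padicNorm.div, nx, div_one]
      exact nsub_le ny₁ ny₂
    have hds : padicNorm p (d * ((y₁ - y₂) / (x₁ - x₂))) < 1 := nmul_lt hdlt hs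
    refine nsub_lt (nsub_lt ?_ (nmul_lt hdlt nx₁)) (nmul_lt hdlt nx₂)
    rw [pow_two]
    exact nmul_lt hds hds.le

end Pool.Agent.Helper19.TC
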